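import Pool.Agent.R904.CU.Main
import Pool.Agent.R905.RF.Dim

/-!
# Smooth projective models and smooth affine cubic hypersurfaces
-/

set_option autoImplicit false
set_option linter.all false

open AlgebraicGeometry CategoryTheory TopologicalSpace MvPolynomial Pool.Agent.R904.CU
  Pool.Agent.R905.RF

namespace Pool.Agent.R905.WM

/-- Every integral separated scheme `X` of finite type over `K` is birational to an integral scheme `Y`
in the class `S`, with `dim Y ≤ dim X`. (If the characteristic is `0` and `S` is the class of smooth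
projective varieties, this follows from Hironaka's theorem.) -/
def Models {K : Type} [Field K] (S : SchProp K) : Prop :=
  ∀ (X : Scheme.{0}) (f : X ⟶ Spec (.of K)), SepFinType K X f → IsIntegral X →
    ∃ (U Y : Scheme.{0}) (j : U ⟶ X) (j' : U ⟶ Y) (g : Y ⟶ Spec (.of K)), Nonempty U ∧
      IsOpenImmersion j ∧ IsOpenImmersion j' ∧ j ≫ f = j' ≫ g ∧ SepFinType K Y g ∧ IsIntegral Y ∧
      S Y g ∧ topologicalKrullDim Y ≤ topologicalKrullDim X

section

variable {K : Type} [Field K] {P S : SchProp K} (h2 : TwoOfThree (SepFinType K) P)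
  (hS : Models S) (h1 : ∀ X f, SepFinType K X f → S X f → P X f)

include h2 hS h1

lemma m_empty (Z : Scheme.{0}) [IsEmpty Z] (f : Z ⟶ Spec (.of K)) : P Z f := by
  haveI : IsIntegral (Spec (.of K)) := inferInstance
  obtain ⟨U, Y, j, j', g, hU, hj, hj', hc, hg, hY, hSY, -⟩ :=
    hS (Spec (.of K)) (𝟙 _) ⟨inferInstance, inferInstance, inferInstance⟩ inferInstance
  have hP := h1 Y g hg hSY
  let i : Z ⟶ Y := (isInitialOfIsEmpty (X := Z)).to Y
  have hi : IsClosedImmersion i := inferInstance
  have hr : Set.range i = (Set.range (𝟙 Y : Y ⟶ Y))ᶜ := by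
    have ha : Set.range (𝟙 Y : Y ⟶ Y) = Set.univ := Set.range_eq_univ.2 (𝟙 Y : Y ⟶ Y).surjective
    rw [ha, Set.compl_univ]
    exact Set.range_eq_empty _
  have h3 := (h2 Y Z Y g i (𝟙 Y) hg hi inferInstance hr).2.2 hP (by
    rw [Category.id_comp]
    exact hP)
  have h4 : i ≫ g = f := (isInitialOfIsEmpty (X := Z)).hom_ext _ _
  rwa [h4] at h3

omit hS h1 in
lemma m_compl {X Z U : Var K} {i : Z.Hom X} {j : U.Hom X} (h : Complementary i j) :
    (P Z.sch Z.str → P X.sch X.str → P U.sch U.str) ∧
    (P Z.sch Z.str → P U.sch U.str → P X.sch X.str) := by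
  have h3 := h2 X.sch Z.sch U.sch X.str i.mor j.mor
    ⟨X.finiteType, X.quasiCompact, X.separated⟩ h.closed h.opn h.compl
  rw [i.comm, j.comm] at h3
  exact ⟨h3.1, h3.2.1⟩

omit h2 hS h1 in
lemma dim_lt {X Y : Type} [TopologicalSpace X] [TopologicalSpace Y] [IrreducibleSpace Y]
    {f : X → Y} (hf : Topology.IsClosedEmbedding f) (hne : Set.range f ≠ Set.univ) {d : ℕ}
    (hd : topologicalKrullDim Y < ((d + 1 : ℕ) : WithBot ℕ∞)) :
    IsEmpty X ∨ topologicalKrullDim X < (d : ℕ) := by
  rcases isEmpty_or_nonempty X with hX | hX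
  · exact Or.inl hX
  right
  have hle : topologicalKrullDim Y ≤ (d : ℕ) := by
    have h3 : ((d + 1 : ℕ) : WithBot ℕ∞) = (d : ℕ) + 1 := by push_cast; rfl
    rw [h3] at hd
    exact ENat.WithBot.lt_add_one_iff.1 hd
  rcases d with _ | d
  · exfalso
    obtain ⟨x⟩ := hX
    let t : IrreducibleCloseds Y := ⟨Set.univ, IrreducibleSpace.isIrreducible_univ Y, isClosed_univ⟩
    let c : IrreducibleCloseds Y := ⟨closure {f x}, isIrreducible_singleton.closure, isClosed_closure⟩
    have hlt : c < t := by
      refine lt_of_le_of_ne (fun y _ => trivial) ?_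
      intro h
      apply hne
      have h4 : (c : Set Y) = Set.univ := by rw [h]; rfl
      have h5 : (c : Set Y) ⊆ Set.range f :=
        closure_minimal (Set.singleton_subset_iff.2 ⟨x, rfl⟩) hf.isClosed_range
      exact Set.eq_univ_of_univ_subset (h4 ▸ h5)
    let p : LTSeries (IrreducibleCloseds Y) := (RelSeries.singleton _ c).snoc t hlt
    have h6 := Order.LTSeries.length_le_krullDim p
    have h7 : ((1 : ℕ) : WithBot ℕ∞) ≤ ((0 : ℕ) : WithBot ℕ∞) :=
      (le_of_eq (by rfl)).trans (h6.trans hle)
    have h8 : (1 : ℕ) ≤ 0 := by exact_mod_cast h7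
    omega
  · refine lt_of_le_of_lt (dim_lt_of_closed hf hne (d := d) hle) ?_
    exact_mod_cast Nat.lt_succ_self d

lemma m_dim (d : ℕ) : ∀ X : Var K, topologicalKrullDim X.sch < (d : ℕ) → P X.sch X.str := by
  induction d with
  | zero =>
    intro X hX
    have hem : IsEmpty X.sch := by
      by_contra hne
      rw [not_isEmpty_iff] at hne
      obtain ⟨x⟩ := hne
      let c : IrreducibleCloseds X.sch :=
        ⟨closure {x}, isIrreducible_singleton.closure, isClosed_closure⟩
      have h6 := Order.LTSeries.length_le_krullDim (RelSeries.singleton _ c)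
      exact absurd (lt_of_le_of_lt h6 hX) (lt_irrefl _)
    exact m_empty h2 hS h1 X.sch X.str
  | succ d ihd =>
    intro X hX
    have key : ∀ (C : Closeds X.sch) (Z : Var K) (i : Z.Hom X), i.Closed → i.image = C →
        P Z.sch Z.str := by
      intro C
      induction C using WellFoundedLT.induction with
      | _ C ih =>
        intro Z i hi hr
        by_cases hem : IsEmpty Z.sch
        · exact m_empty h2 hS h1 Z.sch Z.str
        rw [not_isEmpty_iff] at hem
        obtain ⟨O, hO⟩ := exists_irreducible_open Z hem
        haveI := hO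
        haveI : IsReduced (openSub Z O).sch := (openSub Z O).reduced
        have hint : IsIntegral (openSub Z O).sch := isIntegral_of_irreducibleSpace_of_isReduced _
        obtain ⟨U, Y, j, j', g, hU, hj, hj', hc, hg, hY, hSY, hdim⟩ :=
          hS (openSub Z O).sch (openSub Z O).str
            ⟨(openSub Z O).finiteType, (openSub Z O).quasiCompact, (openSub Z O).separated⟩ hint
        haveI := hj
        haveI := hj'
        haveI : LocallyOfFiniteType g := hg.1
        haveI : QuasiCompact g := hg.2.1
        haveI : IsSeparated g := hg.2.2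
        let Yv : Var K := ⟨Y, g⟩
        haveI : LocallyOfFiniteType (j' ≫ g) := inferInstance
        haveI : IsLocallyNoetherian Y := LocallyOfFiniteType.isLocallyNoetherian g
        haveI : QuasiCompact (j' ≫ g) := inferInstance
        haveI : IsSeparated (j' ≫ g) := inferInstance
        haveI : IsReduced U := isReduced_of_isOpenImmersion j'
        let Uv : Var K := ⟨U, j' ≫ g⟩
        let u' : Uv.Hom Yv := ⟨j', rfl⟩
        have hu' : u'.Open := hj'
        obtain ⟨W, w, hw⟩ := exists_compl u' hu'
        have hUne : Nonempty Uv.sch := hU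
        -- the complement in the model
        have hPW : P W.sch W.str := by
          haveI : IrreducibleSpace Yv.sch := inferInstanceAs (IrreducibleSpace Y)
          haveI : IsClosedImmersion w.mor := hw.closed
          have hne : Set.range w.mor ≠ Set.univ := by
            intro h
            obtain ⟨x⟩ := hUne
            have h3 : w.image = (u'.image)ᶜ := hw.compl
            have h4 : u'.mor x ∈ w.image := by
              change u'.mor x ∈ Set.range w.mor
              rw [h]
              trivial
            rw [h3] at h4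
            exact h4 ⟨x, rfl⟩
          have hd : topologicalKrullDim Yv.sch < ((d + 1 : ℕ) : WithBot ℕ∞) :=
            lt_of_le_of_lt (hdim.trans ((dim_le_of_open (openInc_open Z O)).trans
              (dim_le_of_closed hi))) hX
          rcases dim_lt w.mor.isClosedEmbedding hne hd with h | h
          · exact m_empty h2 hS h1 W.sch W.str
          · exact ihd W h
        have hPY : P Yv.sch Yv.str := h1 Y g hg hSY
        have hPU : P Uv.sch Uv.str := (m_compl h2 hw).1 hPW hPY
        -- the complement in `Z`
        let u : Uv.Hom (openSub Z O) := ⟨j, hc⟩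
        have hu : u.Open := hj
        let v := u.comp (openInc Z O)
        have hv : v.Open := hu.comp (openInc_open Z O)
        obtain ⟨R, r, hrv⟩ := exists_compl v hv
        have hPR : P R.sch R.str := by
          let C' : Closeds X.sch := ⟨(r.comp i).image, (hrv.closed.comp hi).isClosed⟩
          refine ih C' ?_ R (r.comp i) (hrv.closed.comp hi) rfl
          rw [SetLike.lt_iff_le_and_exists]
          constructor
          · intro x hx
            have h3 : x ∈ (r.comp i).image := hx
            rw [image_comp] at h3
            obtain ⟨z, -, rfl⟩ := h3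
            have h4 : i.mor z ∈ i.image := ⟨z, rfl⟩
            rw [hr] at h4
            exact h4
          · obtain ⟨x⟩ := hUne
            refine ⟨i.mor (v.mor x), ?_, ?_⟩
            · have h4 : i.mor (v.mor x) ∈ i.image := ⟨v.mor x, rfl⟩
              rw [hr] at h4
              exact h4
            · intro h
              have h3 : i.mor (v.mor x) ∈ (r.comp i).image := h
              rw [image_comp] at h3
              obtain ⟨z, hz, hz'⟩ := h3
              haveI : IsClosedImmersion i.mor := hi
              have h5 : z = v.mor x := i.mor.isClosedEmbedding.injective hz'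
              rw [h5, hrv.compl] at hz
              exact hz ⟨x, rfl⟩
        exact (m_compl h2 hrv).2 hPR hPU
    exact key ⊤ X (Var.Hom.id X) (id_closed X) (by
      change Set.range (𝟙 X.sch : X.sch ⟶ X.sch) = Set.univ
      exact Set.range_eq_univ.2 (𝟙 X.sch : X.sch ⟶ X.sch).surjective)

/-- affine hypersurfaces -/
lemma m_hyp {σ : Type} [Fintype σ] (F : MvPolynomial σ K) : P _ (hyp F) := by
  let X : Scheme.{0} := Spec (.of (MvPolynomial σ K ⧸ Ideal.span {F}))
  have hX : SepFinType K X (hyp F) := (cls_sepFinType K).affine _ inferInstance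
  haveI : LocallyOfFiniteType (hyp F) := hX.1
  haveI : QuasiCompact (hyp F) := hX.2.1
  haveI : IsSeparated (hyp F) := hX.2.2
  haveI : IsReduced (Scheme.IdealSheafData.vanishingIdeal (⊤ : Closeds X)).subscheme :=
    isReduced_subscheme ⊤
  let r : (Scheme.IdealSheafData.vanishingIdeal (⊤ : Closeds X)).subscheme ⟶ X :=
    (Scheme.IdealSheafData.vanishingIdeal (⊤ : Closeds X)).subschemeι
  let Xr : Var K := ⟨(Scheme.IdealSheafData.vanishingIdeal (⊤ : Closeds X)).subscheme,
    r ≫ hyp F⟩
  haveI : IsClosedImmersion r := inferInstance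
  have hdim : topologicalKrullDim Xr.sch < ((Fintype.card σ + 1 : ℕ) : WithBot ℕ∞) := by
    have h3 : topologicalKrullDim Xr.sch ≤ topologicalKrullDim X :=
      r.isClosedEmbedding.isInducing.topologicalKrullDim_le
    have h4 : topologicalKrullDim X ≤ (Fintype.card σ : ℕ) := by
      change topologicalKrullDim (PrimeSpectrum (MvPolynomial σ K ⧸ Ideal.span {F})) ≤ _
      rw [PrimeSpectrum.topologicalKrullDim_eq_ringKrullDim]
      refine (ringKrullDim_quotient_le _).trans ?_
      rw [MvPolynomial.ringKrullDim_of_isNoetherianRing, ringKrullDim_eq_zero_of_field, zero_add,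
        Nat.card_eq_fintype_card]
    refine lt_of_le_of_lt (h3.trans h4) ?_
    exact_mod_cast Nat.lt_succ_self _
  have hP := m_dim h2 hS h1 (Fintype.card σ + 1) Xr hdim
  have hem : IsEmpty ((⊥ : X.Opens) : Scheme.{0}) := ⟨fun x => x.2⟩
  have h5 := m_empty h2 hS h1 ((⊥ : X.Opens) : Scheme.{0}) ((⊥ : X.Opens).ι ≫ hyp F)
  refine (h2 X Xr.sch ((⊥ : X.Opens) : Scheme.{0}) (hyp F) r (⊥ : X.Opens).ι hX inferInstance
    inferInstance ?_).2.1 hP h5
  rw [Scheme.Opens.range_ι]
  change Set.range (Scheme.IdealSheafData.vanishingIdeal (⊤ : Closeds X)).subschemeι = _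
  rw [Scheme.IdealSheafData.range_subschemeι, Scheme.IdealSheafData.coe_support_vanishingIdeal]
  simp

end

/-- For a property with two-out-of-three which is invariant under affine bundles, the smooth projective
varieties, all varieties and the smooth affine cubic hypersurfaces are equivalent test classes. -/
theorem tfae_cubic {K : Type} [Field K] {P S : SchProp K} (h2 : TwoOfThree (SepFinType K) P)
    (hb : BundleInvariant (SepFinType K) P) (hS : Models S) :
    [∀ X f, SepFinType K X f → S X f → P X f,
     ∀ X f, SepFinType K X f → P X f,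
     ∀ (σ : Type) [Fintype σ] (F : MvPolynomial σ K), IsSmoothCubic F → P _ (hyp F)].TFAE := by
  tfae_have 2 → 1 := fun h X f hf _ => h X f hf
  tfae_have 1 → 3 := fun h σ _ F _ => m_hyp h2 hS h F
  tfae_have 3 → 2 := fun h X f hf => p_all (cls_sepFinType K) h2 hb h X f hf
  tfae_finish

end Pool.Agent.R905.WM
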