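import Pool.Agent.R905.WM.Lin

/-!
# The weight-monodromy property in an exact sequence
-/

set_option autoImplicit false
set_option linter.all false

namespace Pool.Agent.R905.WM

variable {E : Type} [Field E] [CharZero E] [IsAlgClosed E]

/-- the Weil numbers of weight `w` -/
def Wt (q : ℕ) (w : ℤ) : Set E := {μ | IsWeil q w μ}

/-- `N ^ s : V_{m + s} → V_{m - s}` is bijective for all `s ≥ 0`, where `V_w` is the sum of the
generalized eigenspaces for the eigenvalues of weight `w`. -/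
structure Crit {V : Type} [AddCommGroup V] [Module E V] (q : ℕ) (m : ℤ)
    (φ N : Module.End E V) : Prop where
  all : ∀ x : V, x ∈ sp φ {μ | ∃ w : ℤ, IsWeil q w μ}
  inj : ∀ (s : ℕ), ∀ x ∈ sp φ (Wt q (m + s)), (N ^ s) x = 0 → x = 0
  surj : ∀ (s : ℕ), ∀ y ∈ sp φ (Wt q (m - s)), ∃ x ∈ sp φ (Wt q (m + s)), (N ^ s) x = y

section

variable {V : Type} [AddCommGroup V] [Module E V] {q : ℕ} (hq : 2 ≤ q)
  {φ N : Module.End E V} (hN : ∀ x, N (φ x) = (q : E) • φ (N x))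

include hN in
lemma comm_N_pow (s : ℕ) (x : V) : (N ^ s) (φ x) = (q : E) ^ s • φ ((N ^ s) x) := by
  induction s generalizing x with
  | zero => simp
  | succ s ih =>
    rw [pow_succ, pow_succ]
    change (N ^ s) (N (φ x)) = ((q : E) ^ s * q) • φ ((N ^ s) (N x))
    rw [hN, map_smul, ih, smul_smul, mul_comm]

include hq hN

lemma sp_N_pow (s : ℕ) {S T : Set E} (hST : ∀ ν, (q : E) ^ s * ν ∈ S → ν ∈ T) {x : V}
    (hx : x ∈ sp φ S) : (N ^ s) x ∈ sp φ T :=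
  sp_map_twist (f := N ^ s) (c := (q : E) ^ s)
    (pow_ne_zero s (Nat.cast_ne_zero.2 (by omega))) (comm_N_pow hN s) hST hx

omit hN in
lemma wt_shift (s : ℕ) {w : ℤ} (ν : E) : (q : E) ^ s * ν ∈ Wt q w ↔ ν ∈ Wt q (w - 2 * s) := by
  have hq0 : (q : E) ≠ 0 := Nat.cast_ne_zero.2 (by omega)
  constructor
  · intro h
    have h1 := isWeil_mul hq (-(s : ℤ)) h
    rw [zpow_neg, zpow_natCast, inv_mul_cancel_left₀ (pow_ne_zero s hq0)] at h1
    have h2 : w + 2 * -(s : ℤ) = w - 2 * s := by ring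
    rwa [h2] at h1
  · intro h
    have h1 := isWeil_mul hq (s : ℤ) h
    rw [zpow_natCast] at h1
    have h2 : w - 2 * s + 2 * (s : ℤ) = w := by ring
    rwa [h2] at h1

lemma sp_N_wt (s : ℕ) {m : ℤ} {x : V} (hx : x ∈ sp φ (Wt q (m + s))) :
    (N ^ s) x ∈ sp φ (Wt q (m - s)) := by
  refine sp_N_pow hq hN s (fun ν hν => ?_) hx
  rw [wt_shift hq] at hν
  have h2 : m + s - 2 * (s : ℤ) = m - s := by ring
  rwa [h2] at hν

/-! ### from the filtration to the criterion -/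

omit hq hN in
/-- the level of a generalized eigenvector -/
lemma exists_level {M : ℤ → Submodule E V} (hM : IsMonodromyFiltration N M)
    (hφ : ∀ (j : ℤ), ∀ x ∈ M j, φ x ∈ M j) {m : ℤ}
    (hw : ∀ (s : ℤ) (μ : E) (x : V), x ∈ M s → x ∉ M (s - 1) → φ x - μ • x ∈ M (s - 1) →
      IsWeil q (m + s) μ) {μ : E} {x : V} (hx : x ∈ φ.maxGenEigenspace μ) (hx0 : x ≠ 0) :
    ∃ s, x ∈ M s ∧ x ∉ M (s - 1) ∧ IsWeil q (m + s) μ := by
  obtain ⟨a, ha⟩ := hM.separated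
  obtain ⟨b, hb⟩ := hM.exhaustive
  have hxb : x ∈ M b := by rw [hb]; trivial
  have hxa : x ∉ M a := by rw [ha]; exact fun h => hx0 ((Submodule.mem_bot E).1 h)
  -- minimal level
  have hex : ∃ n : ℕ, x ∈ M (a + n) := by
    refine ⟨(b - a).toNat, ?_⟩
    exact hM.mono (by omega) hxb
  classical
  let n := Nat.find hex
  have hn : x ∈ M (a + n) := Nat.find_spec hex
  have hn0 : n ≠ 0 := by
    intro h
    rw [h] at hn
    apply hxa
    simpa using hn
  have hn1 : x ∉ M (a + n - 1) := by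
    have h1 := Nat.find_min hex (m := n - 1) (by omega)
    have h2 : a + ((n - 1 : ℕ) : ℤ) = a + n - 1 := by omega
    rwa [h2] at h1
  refine ⟨a + n, hn, hn1, ?_⟩
  -- minimal power
  obtain ⟨k, hk⟩ := (Module.End.mem_maxGenEigenspace _ _ _).1 hx
  have hex' : ∃ k : ℕ, ((φ - μ • 1) ^ k : Module.End E V) x ∈ M (a + n - 1) :=
    ⟨k, by rw [hk]; exact Submodule.zero_mem _⟩
  let k₀ := Nat.find hex'
  have hk₀ : ((φ - μ • 1) ^ k₀ : Module.End E V) x ∈ M (a + n - 1) := Nat.find_spec hex'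
  have hk1 : k₀ ≠ 0 := by
    intro h
    rw [h] at hk₀
    apply hn1
    simpa using hk₀
  obtain ⟨r, hr⟩ : ∃ r, k₀ = r + 1 := ⟨k₀ - 1, by omega⟩
  have hy : ((φ - μ • 1) ^ r : Module.End E V) x ∉ M (a + n - 1) := Nat.find_min hex' (by omega)
  have hys : ∀ r : ℕ, ((φ - μ • 1) ^ r : Module.End E V) x ∈ M (a + n) := by
    intro r
    induction r with
    | zero => simpa using hn
    | succ r ih =>
      rw [pow_succ']
      change φ _ - μ • _ ∈ M (a + n)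
      exact Submodule.sub_mem _ (hφ _ _ ih) (Submodule.smul_mem _ _ ih)
  refine hw (a + n) μ _ (hys r) hy ?_
  rw [hr, pow_succ'] at hk₀
  exact hk₀

omit hN in
lemma crit_aux [Module.Finite E V] {M : ℤ → Submodule E V} (hM : IsMonodromyFiltration N M)
    (hφ : ∀ (j : ℤ), ∀ x ∈ M j, φ x ∈ M j) {m : ℤ}
    (hw : ∀ (s : ℤ) (μ : E) (x : V), x ∈ M s → x ∉ M (s - 1) → φ x - μ • x ∈ M (s - 1) →
      IsWeil q (m + s) μ) (w : ℤ) :
    sp φ (Wt q w) ≤ M (w - m) ∧ ∀ x ∈ sp φ (Wt q w), x ∈ M (w - m - 1) → x = 0 := by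
  constructor
  · refine sp_induct fun μ hμ x hx => ?_
    by_cases hx0 : x = 0
    · rw [hx0]; exact Submodule.zero_mem _
    obtain ⟨s, hs, -, h⟩ := exists_level hM hφ hw hx hx0
    have : m + s = w := isWeil_unique hq h hμ
    have h2 : s = w - m := by omega
    rwa [← h2]
  · intro x hx hx'
    by_contra hx0
    let L : Submodule E V := sp φ (Wt q w) ⊓ M (w - m - 1)
    have hL : ∀ x ∈ L, φ x ∈ L := fun x hx => ⟨sp_stable hx.1, hφ _ _ hx.2⟩
    let ψ : Module.End E L := φ.restrict hL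
    haveI : Nontrivial L :=
      nontrivial_of_ne (⟨x, hx, hx'⟩ : L) 0 fun h => hx0 (congrArg (fun z : L => (z : V)) h)
    obtain ⟨μ, hμ⟩ := Module.End.exists_eigenvalue ψ
    obtain ⟨y, hy, hy0⟩ := hμ.exists_hasEigenvector
    have hy1 : φ (y : V) = μ • (y : V) := by
      have := Module.End.mem_eigenspace_iff.1 hy
      exact congrArg Subtype.val this
    have hy2 : (y : V) ≠ 0 := fun h => hy0 (Subtype.ext h)
    have hμw : IsWeil q w μ := mem_of_eigen y.2.1 hy2 hy1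
    have hgen : (y : V) ∈ φ.maxGenEigenspace μ := by
      rw [Module.End.mem_maxGenEigenspace]
      refine ⟨1, ?_⟩
      rw [pow_one]
      change φ (y : V) - μ • (y : V) = 0
      rw [hy1, sub_self]
    obtain ⟨s, hs, hs', h⟩ := exists_level hM hφ hw hgen hy2
    have h1 : m + s = w := isWeil_unique hq h hμw
    have h2 : s - 1 = w - m - 1 := by omega
    rw [h2] at hs'
    exact hs' y.2.2

lemma crit_of_wm [Module.Finite E V] {m : ℤ} (h : WeightMonodromy q m φ N) :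
    Crit q m φ N := by
  obtain ⟨M, hM, hφ, hw⟩ := h
  refine ⟨fun x => ?_, fun s x hx h0 => ?_, fun s y hy => ?_⟩
  · have h1 : sp φ Set.univ ≤ sp φ {μ : E | ∃ w : ℤ, IsWeil q w μ} := by
      refine sp_induct fun μ _ x hx => ?_
      by_cases hx0 : x = 0
      · rw [hx0]; exact Submodule.zero_mem _
      obtain ⟨s, -, -, h⟩ := exists_level hM hφ hw hx hx0
      exact gen_le_sp φ (show μ ∈ {μ : E | ∃ w : ℤ, IsWeil q w μ} from ⟨_, h⟩) hx
    exact h1 (sp_univ φ x)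
  · have h1 := crit_aux hq hM hφ hw (m + s)
    refine h1.2 x hx ?_
    have h2 : m + s - m - 1 = (s : ℤ) - 1 := by ring
    rw [h2]
    refine hM.inj s x ?_ ?_
    · have := h1.1 hx
      have h3 : m + s - m = (s : ℤ) := by ring
      rwa [h3] at this
    · rw [h0]
      exact Submodule.zero_mem _
  · have h1 := crit_aux hq hM hφ hw (m - s)
    have h1' := crit_aux hq hM hφ hw (m + s)
    have hy' : y ∈ M (-s) := by
      have := h1.1 hy
      have h3 : m - s - m = -(s : ℤ) := by ring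
      rwa [h3] at this
    obtain ⟨x, hx, hxy⟩ := hM.surj s y hy'
    obtain ⟨a, ha, b, hb, rfl⟩ := sp_split φ (Wt q (m + s)) x
    refine ⟨a, ha, ?_⟩
    have hA := sp_N_wt hq hN s ha
    have hB : (N ^ s) b ∈ sp φ (Wt q (m - s))ᶜ := by
      refine sp_N_pow hq hN s (fun ν hν => ?_) hb
      intro hν'
      apply hν
      rw [wt_shift hq]
      have h2 : m + s - 2 * (s : ℤ) = m - s := by ring
      rwa [h2]
    have hmem : (y - (N ^ s) a) + -(N ^ s) b ∈ M (-s - 1) := by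
      have h2 : (y - (N ^ s) a) + -(N ^ s) b = y - (N ^ s) (a + b) := by
        rw [map_add]
        abel
      rw [h2]
      exact hxy
    have h4 := sp_component (hφ _) (Submodule.sub_mem _ hy hA) (Submodule.neg_mem _ hB) hmem
    have h5 := h1.2 (y - (N ^ s) a) (Submodule.sub_mem _ hy hA) (by
      have h6 : m - s - m - 1 = -(s : ℤ) - 1 := by ring
      rwa [h6])
    exact (sub_eq_zero.1 h5).symm

/-! ### from the criterion to the filtration -/

/-- weights at most `w` -/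
def Le (q : ℕ) (w : ℤ) : Set E := {μ | ∃ v : ℤ, v ≤ w ∧ IsWeil q v μ}

omit hq hN in
lemma le_union (w : ℤ) : (Le q w : Set E) = Le q (w - 1) ∪ Wt q w := by
  ext μ
  constructor
  · rintro ⟨v, hv, h⟩
    by_cases hvw : v = w
    · exact Or.inr (hvw ▸ h)
    · exact Or.inl ⟨v, by omega, h⟩
  · rintro (⟨v, hv, h⟩ | h)
    · exact ⟨v, by omega, h⟩
    · exact ⟨w, le_rfl, h⟩

omit hN in
lemma le_disjoint (w : ℤ) : Disjoint (Le q (w - 1) : Set E) (Wt q w) := by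
  rw [Set.disjoint_left]
  rintro μ ⟨v, hv, h⟩ h'
  have := isWeil_unique hq h h'
  omega

lemma sp_N_le (s : ℕ) {w : ℤ} {x : V} (hx : x ∈ sp φ (Le q w)) :
    (N ^ s) x ∈ sp φ (Le q (w - 2 * s)) := by
  refine sp_N_pow hq hN s (fun ν hν => ?_) hx
  obtain ⟨v, hv, h⟩ := hν
  exact ⟨v - 2 * s, by omega, (wt_shift hq s ν).1 h⟩

lemma wm_of_crit [Module.Finite E V] {m : ℤ} (h : Crit q m φ N) : WeightMonodromy q m φ N := by
  classical
  have htop : ∀ x : V, x ∈ sp φ {μ | ∃ w : ℤ, IsWeil q w μ} := h.all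
  -- the finite set of eigenvalues
  have hfin : Set.Finite {μ : E | φ.maxGenEigenspace μ ≠ ⊥} :=
    WellFoundedGT.finite_ne_bot_of_iSupIndep φ.independent_maxGenEigenspace
  have hwt : ∀ μ : E, φ.maxGenEigenspace μ ≠ ⊥ → ∃ w : ℤ, IsWeil q w μ := by
    intro μ hμ
    obtain ⟨x, hx, hx0⟩ := (Submodule.ne_bot_iff _).1 hμ
    by_contra hcon
    refine hx0 (sp_disjoint φ (S := {μ}) (T := {μ | ∃ w : ℤ, IsWeil q w μ}) ?_ ?_ (htop x))
    · rw [Set.disjoint_singleton_left]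
      exact hcon
    · rw [sp_singleton]
      exact hx
  choose! wt hwt' using hwt
  let F := hfin.toFinset
  obtain ⟨B, hB⟩ : ∃ B : ℤ, ∀ μ ∈ F, wt μ ≤ B := by
    obtain ⟨B, hB⟩ := (F.finite_toSet.image wt).bddAbove
    exact ⟨B, fun μ hμ => hB ⟨μ, hμ, rfl⟩⟩
  obtain ⟨A, hA⟩ : ∃ A : ℤ, ∀ μ ∈ F, A ≤ wt μ := by
    obtain ⟨A, hA⟩ := (F.finite_toSet.image wt).bddBelow
    exact ⟨A, fun μ hμ => hA ⟨μ, hμ, rfl⟩⟩
  have hspF : ∀ S : Set E, sp φ S ≤ sp φ (S ∩ F) := by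
    intro S
    refine sp_induct fun μ hμ x hx => ?_
    by_cases hx0 : x = 0
    · rw [hx0]; exact Submodule.zero_mem _
    · have hμF : μ ∈ F := by
        rw [Set.Finite.mem_toFinset]
        exact (Submodule.ne_bot_iff _).2 ⟨x, hx, hx0⟩
      exact gen_le_sp φ (Set.mem_inter hμ hμF) hx
  refine ⟨fun j => sp φ (Le q (m + j)), ⟨?_, ?_, ?_, ?_, ?_, ?_⟩, ?_, ?_⟩
  · intro i j hij
    refine sp_mono φ ?_
    rintro μ ⟨v, hv, h⟩
    exact ⟨v, by omega, h⟩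
  · refine ⟨A - 1 - m, ?_⟩
    rw [eq_bot_iff]
    refine (hspF _).trans ?_
    refine sp_induct fun μ hμ x hx => ?_
    exfalso
    obtain ⟨⟨v, hv, h⟩, hμF⟩ := hμ
    have h1 := hA μ hμF
    have h2 := hwt' μ ((Set.Finite.mem_toFinset _).1 hμF)
    have h3 := isWeil_unique hq h h2
    omega
  · refine ⟨B - m, ?_⟩
    rw [eq_top_iff]
    intro x _
    refine (sp_mono φ ?_) (hspF _ (sp_univ φ x))
    rintro μ ⟨-, hμF⟩
    have h1 := hB μ hμF
    exact ⟨wt μ, by omega, hwt' μ ((Set.Finite.mem_toFinset _).1 hμF)⟩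
  · intro j x hx
    have h1 := sp_N_le hq hN 1 hx
    rw [pow_one] at h1
    have h2 : m + j - 2 * ((1 : ℕ) : ℤ) = m + (j - 2) := by push_cast; ring
    rwa [h2] at h1
  · intro s x hx hx'
    change x ∈ sp φ (Le q (m + s)) at hx
    rw [le_union] at hx
    obtain ⟨a, ha, b, hb, rfl⟩ := sp_union φ hx
    have h1 := sp_N_le hq hN s ha
    have h2 : m + (s : ℤ) - 1 - 2 * s = m - s - 1 := by ring
    rw [h2] at h1
    have h3 := sp_N_wt hq hN s hb
    have h4 : (N ^ s) b ∈ sp φ (Le q (m - s - 1)) := by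
      have h5 : m + (-(s : ℤ) - 1) = m - s - 1 := by ring
      change (N ^ s) (a + b) ∈ sp φ (Le q (m + (-(s : ℤ) - 1))) at hx'
      rw [h5] at hx'
      have := Submodule.sub_mem _ hx' h1
      rwa [map_add, add_sub_cancel_left] at this
    have h6 := sp_disjoint φ (le_disjoint hq (m - s)) h4 h3
    have h7 := h.inj s b hb h6
    rw [h7, add_zero]
    have h8 : m + ((s : ℤ) - 1) = m + s - 1 := by ring
    change a ∈ sp φ (Le q (m + ((s : ℤ) - 1)))
    rwa [h8]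
  · intro s y hy
    change y ∈ sp φ (Le q (m + -(s : ℤ))) at hy
    have h1 : m + -(s : ℤ) = m - s := by ring
    rw [h1, le_union] at hy
    obtain ⟨a, ha, b, hb, rfl⟩ := sp_union φ hy
    obtain ⟨x, hx, hxb⟩ := h.surj s b hb
    refine ⟨x, ?_, ?_⟩
    · change x ∈ sp φ (Le q (m + s))
      rw [le_union]
      exact sp_mono φ Set.subset_union_right hx
    · rw [hxb, add_sub_cancel_right]
      have h8 : m + (-(s : ℤ) - 1) = m - s - 1 := by ring
      change a ∈ sp φ (Le q (m + (-(s : ℤ) - 1)))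
      rwa [h8]
  · intro j x hx
    exact sp_stable hx
  · intro s μ x hx hx' hμ
    change x ∈ sp φ (Le q (m + s)) at hx
    have h8 : m + (s - 1) = m + s - 1 := by ring
    change x ∉ sp φ (Le q (m + (s - 1))) at hx'
    change φ x - μ • x ∈ sp φ (Le q (m + (s - 1))) at hμ
    rw [h8] at hx' hμ
    rw [le_union] at hx
    obtain ⟨a, ha, b, hb, rfl⟩ := sp_union φ hx
    have hb0 : b ≠ 0 := by
      rintro rfl
      rw [add_zero] at hx'
      exact hx' ha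
    have h1 : φ b - μ • b ∈ sp φ (Le q (m + s - 1)) := by
      have h2 : φ b - μ • b = (φ (a + b) - μ • (a + b)) - (φ a - μ • a) := by
        rw [map_add, smul_add]
        abel
      rw [h2]
      exact Submodule.sub_mem _ hμ
        (Submodule.sub_mem _ (sp_stable ha) (Submodule.smul_mem _ _ ha))
    have h2 : φ b - μ • b ∈ sp φ (Wt q (m + s)) :=
      Submodule.sub_mem _ (sp_stable hb) (Submodule.smul_mem _ _ hb)
    have h3 := sp_disjoint φ (le_disjoint hq (m + s)) h1 h2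
    exact mem_of_eigen hb hb0 (sub_eq_zero.1 h3)

theorem wm_iff [Module.Finite E V] {m : ℤ} : WeightMonodromy q m φ N ↔ Crit q m φ N :=
  ⟨crit_of_wm hq hN, wm_of_crit hq hN⟩

end

/-! ### the five lemma -/

section five

variable {V₁ V₂ V₃ V₄ V₅ : Type} [AddCommGroup V₁] [Module E V₁] [AddCommGroup V₂] [Module E V₂]
  [AddCommGroup V₃] [Module E V₃] [AddCommGroup V₄] [Module E V₄] [AddCommGroup V₅] [Module E V₅]
  [Module.Finite E V₁] [Module.Finite E V₂] [Module.Finite E V₃] [Module.Finite E V₄]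
  {q : ℕ} (hq : 2 ≤ q) {m : ℤ}
  {φ₁ N₁ : Module.End E V₁} {φ₂ N₂ : Module.End E V₂} {φ₃ N₃ : Module.End E V₃}
  {φ₄ N₄ : Module.End E V₄} {φ₅ N₅ : Module.End E V₅}
  {f₁ : V₁ →ₗ[E] V₂} {f₂ : V₂ →ₗ[E] V₃} {f₃ : V₃ →ₗ[E] V₄} {f₄ : V₄ →ₗ[E] V₅}

lemma comm_pow_N {V W : Type} [AddCommGroup V] [Module E V] [AddCommGroup W] [Module E W]
    {N : Module.End E V} {N' : Module.End E W} {f : V →ₗ[E] W} (h : ∀ x, f (N x) = N' (f x))
    (s : ℕ) (x : V) : f ((N ^ s) x) = (N' ^ s) (f x) := by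
  induction s generalizing x with
  | zero => simp
  | succ s ih =>
    rw [pow_succ, pow_succ]
    change f ((N ^ s) (N x)) = (N' ^ s) (N' (f x))
    rw [ih, h]

include hq in
theorem crit_five
    (hN₁ : ∀ x, N₁ (φ₁ x) = (q : E) • φ₁ (N₁ x)) (hN₂ : ∀ x, N₂ (φ₂ x) = (q : E) • φ₂ (N₂ x))
    (hN₃ : ∀ x, N₃ (φ₃ x) = (q : E) • φ₃ (N₃ x)) (hN₄ : ∀ x, N₄ (φ₄ x) = (q : E) • φ₄ (N₄ x))
    (h₁φ : ∀ x, f₁ (φ₁ x) = φ₂ (f₁ x)) (h₁N : ∀ x, f₁ (N₁ x) = N₂ (f₁ x))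
    (h₂φ : ∀ x, f₂ (φ₂ x) = φ₃ (f₂ x)) (h₂N : ∀ x, f₂ (N₂ x) = N₃ (f₂ x))
    (h₃φ : ∀ x, f₃ (φ₃ x) = φ₄ (f₃ x)) (h₃N : ∀ x, f₃ (N₃ x) = N₄ (f₃ x))
    (h₄φ : ∀ x, f₄ (φ₄ x) = φ₅ (f₄ x)) (h₄N : ∀ x, f₄ (N₄ x) = N₅ (f₄ x))
    (e₂ : ∀ x, f₂ x = 0 ↔ ∃ y, f₁ y = x) (e₃ : ∀ x, f₃ x = 0 ↔ ∃ y, f₂ y = x)
    (e₄ : ∀ x, f₄ x = 0 ↔ ∃ y, f₃ y = x)
    (c₁ : Crit q m φ₁ N₁) (c₂ : Crit q m φ₂ N₂) (c₄ : Crit q m φ₄ N₄) (c₅ : Crit q m φ₅ N₅) :
    Crit q m φ₃ N₃ := by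
  refine ⟨fun x => ?_, fun s x hx h0 => ?_, fun s y hy => ?_⟩
  · obtain ⟨x', hx', h1⟩ := sp_lift h₃φ (c₄.all (f₃ x))
    have h2 : f₃ (x - x') = 0 := by rw [map_sub, h1, sub_self]
    obtain ⟨y, hy⟩ := (e₃ _).1 h2
    have h3 : x - x' ∈ sp φ₃ {μ : E | ∃ w : ℤ, IsWeil q w μ} := by
      rw [← hy]
      exact sp_map h₂φ (c₂.all y)
    have := Submodule.add_mem _ h3 hx'
    rwa [sub_add_cancel] at this
  · have h1 : (N₄ ^ s) (f₃ x) = 0 := by rw [← comm_pow_N h₃N, h0, map_zero]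
    have h2 := c₄.inj s (f₃ x) (sp_map h₃φ hx) h1
    obtain ⟨y, hy⟩ := (e₃ _).1 h2
    rw [← hy] at hx
    obtain ⟨y', hy', h3⟩ := sp_lift h₂φ hx
    have h4 : f₂ ((N₂ ^ s) y') = 0 := by rw [comm_pow_N h₂N, h3, hy, h0]
    obtain ⟨z, hz⟩ := (e₂ _).1 h4
    have h5 := sp_N_wt hq hN₂ s hy'
    rw [← hz] at h5
    obtain ⟨z', hz', h6⟩ := sp_lift h₁φ h5
    obtain ⟨u, hu, hu'⟩ := c₁.surj s z' hz'
    have h7 : (N₂ ^ s) (y' - f₁ u) = 0 := by
      rw [map_sub, ← comm_pow_N h₁N, hu', h6, hz, sub_self]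
    have h8 := c₂.inj s _ (Submodule.sub_mem _ hy' (sp_map h₁φ hu)) h7
    have h9 : f₂ (f₁ u) = 0 := (e₂ _).2 ⟨u, rfl⟩
    rw [← hy, ← h3, sub_eq_zero.1 h8, h9]
  · obtain ⟨v, hv, hv'⟩ := c₄.surj s (f₃ y) (sp_map h₃φ hy)
    have h1 : (N₅ ^ s) (f₄ v) = 0 := by
      rw [← comm_pow_N h₄N, hv']
      exact (e₄ _).2 ⟨y, rfl⟩
    have h2 := c₅.inj s _ (sp_map h₄φ hv) h1
    obtain ⟨u, hu⟩ := (e₄ _).1 h2
    rw [← hu] at hv
    obtain ⟨u', hu', h3⟩ := sp_lift h₃φ hv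
    have h4 : f₃ (y - (N₃ ^ s) u') = 0 := by
      rw [map_sub, comm_pow_N h₃N, h3, hu, hv', sub_self]
    obtain ⟨z, hz⟩ := (e₃ _).1 h4
    have h5 : f₂ z ∈ sp φ₃ (Wt q (m - s)) := by
      rw [hz]
      exact Submodule.sub_mem _ hy (sp_N_wt hq hN₃ s hu')
    obtain ⟨z', hz', h6⟩ := sp_lift h₂φ h5
    obtain ⟨t, ht, ht'⟩ := c₂.surj s z' hz'
    refine ⟨u' + f₂ t, Submodule.add_mem _ hu' (sp_map h₂φ ht), ?_⟩
    rw [map_add, ← comm_pow_N h₂N, ht', h6, hz]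
    abel

end five

/-! ### Tate twists -/

section twist

variable {V W : Type} [AddCommGroup V] [Module E V] [AddCommGroup W] [Module E W]
  {q : ℕ} (hq : 2 ≤ q) {m : ℤ} {φ N : Module.End E V} {φ' N' : Module.End E W}
  (e : V ≃ₗ[E] W) (n : ℤ) (heφ : ∀ x, e (φ x) = (q : E) ^ n • φ' (e x))
  (heN : ∀ x, e (N x) = N' (e x))

include hq heφ heN

/-- `φ' = q ^ (-n) φ` -/
theorem crit_twist (h : Crit q m φ N) : Crit q (m - 2 * n) φ' N' := by
  have hq0 : (q : E) ≠ 0 := Nat.cast_ne_zero.2 (by omega)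
  have hqn : (q : E) ^ n ≠ 0 := zpow_ne_zero n hq0
  have hwt : ∀ (w : ℤ) (ν : E), (q : E) ^ n * ν ∈ Wt q w → ν ∈ Wt q (w - 2 * n) := by
    intro w ν hν
    have h1 := isWeil_mul hq (-n) hν
    rw [zpow_neg, inv_mul_cancel_left₀ hqn] at h1
    have h2 : w + 2 * -n = w - 2 * n := by ring
    rwa [h2] at h1
  have heφ' : ∀ y, e.symm (φ' y) = ((q : E) ^ n)⁻¹ • φ (e.symm y) := by
    intro y
    apply e.injective
    rw [map_smul, heφ, e.apply_symm_apply, e.apply_symm_apply, smul_smul, inv_mul_cancel₀ hqn,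
      one_smul]
  have heN' : ∀ (s : ℕ) (y : W), e.symm ((N' ^ s) y) = (N ^ s) (e.symm y) := by
    intro s y
    apply e.injective
    have := comm_pow_N (f := e.toLinearMap) (N := N) (N' := N') heN s (e.symm y)
    change e ((N ^ s) (e.symm y)) = (N' ^ s) (e (e.symm y)) at this
    rw [this, e.apply_symm_apply, e.apply_symm_apply]
  have hwt' : ∀ (w : ℤ) (ν : E), ((q : E) ^ n)⁻¹ * ν ∈ Wt q (w - 2 * n) → ν ∈ Wt q w := by
    intro w ν hν
    have h1 := isWeil_mul hq n hν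
    rw [mul_inv_cancel_left₀ hqn] at h1
    have h2 : w - 2 * n + 2 * n = w := by ring
    rwa [h2] at h1
  refine ⟨fun y => ?_, fun s y hy h0 => ?_, fun s y hy => ?_⟩
  · have h1 := sp_map_twist (f := e.toLinearMap) (c := (q : E) ^ n) hqn heφ
      (T := {μ : E | ∃ w : ℤ, IsWeil q w μ}) (fun ν hν => by
        obtain ⟨w, hw⟩ := hν
        exact ⟨w - 2 * n, hwt w ν hw⟩) (h.all (e.symm y))
    change e (e.symm y) ∈ _ at h1
    rwa [e.apply_symm_apply] at h1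
  · have h1 := sp_map_twist (f := e.symm.toLinearMap) (c := ((q : E) ^ n)⁻¹) (inv_ne_zero hqn)
      heφ' (T := Wt q (m + s)) (fun ν hν => hwt' (m + s) ν (by
        have h2 : m + s - 2 * n = m - 2 * n + s := by ring
        rwa [h2])) hy
    have h3 := h.inj s _ h1 (by
      change (N ^ s) (e.symm y) = 0
      rw [← heN', h0, map_zero])
    change e.symm y = 0 at h3
    exact (LinearEquiv.map_eq_zero_iff _).1 h3
  · have h1 := sp_map_twist (f := e.symm.toLinearMap) (c := ((q : E) ^ n)⁻¹) (inv_ne_zero hqn)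
      heφ' (T := Wt q (m - s)) (fun ν hν => hwt' (m - s) ν (by
        have h2 : m - s - 2 * n = m - 2 * n - s := by ring
        rwa [h2])) hy
    obtain ⟨x, hx, hxy⟩ := h.surj s _ h1
    refine ⟨e x, ?_, ?_⟩
    · have h2 := sp_map_twist (f := e.toLinearMap) (c := (q : E) ^ n) hqn heφ
        (T := Wt q (m - 2 * n + s)) (fun ν hν => by
          have h3 := hwt (m + s) ν hν
          have h4 : m + s - 2 * n = m - 2 * n + s := by ring
          rwa [h4] at h3) hx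
      exact h2
    · apply e.symm.injective
      rw [heN', e.symm_apply_apply, hxy]
      rfl

end twist

end Pool.Agent.R905.WM
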