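import Mathlib

/-!
# Weights, monodromy filtrations and the five lemma
-/

set_option autoImplicit false
set_option linter.all false

namespace Pool.Agent.R905.WM

variable {E : Type} [Field E]

/-- `μ` is an algebraic number all of whose complex conjugates have absolute value `q ^ (w / 2)`. -/
def IsWeil [CharZero E] (q : ℕ) (w : ℤ) (μ : E) : Prop :=
  ∃ a : algebraicClosure ℚ E, (a : E) = μ ∧
    ∀ σ : algebraicClosure ℚ E →+* ℂ, ‖σ a‖ = (q : ℝ) ^ ((w : ℝ) / 2)

/-- `M` is the monodromy filtration of the nilpotent operator `N`. -/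
structure IsMonodromyFiltration {V : Type} [AddCommGroup V] [Module E V] (N : Module.End E V)
    (M : ℤ → Submodule E V) : Prop where
  mono : Monotone M
  separated : ∃ a, M a = ⊥
  exhaustive : ∃ b, M b = ⊤
  map : ∀ (j : ℤ), ∀ x ∈ M j, N x ∈ M (j - 2)
  /-- `N ^ s : gr_s → gr_{-s}` is injective -/
  inj : ∀ (s : ℕ), ∀ x ∈ M s, (N ^ s) x ∈ M (-s - 1) → x ∈ M (s - 1)
  /-- `N ^ s : gr_s → gr_{-s}` is surjective -/
  surj : ∀ (s : ℕ), ∀ y ∈ M (-s), ∃ x ∈ M s, y - (N ^ s) x ∈ M (-s - 1)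

/-- The monodromy filtration `M` of `N` is stable under `φ` and, for every `s`, all eigenvalues of `φ`
on `gr^M_s` are algebraic numbers all of whose complex conjugates have absolute value
`q ^ ((m + s) / 2)`. -/
def WeightMonodromy [CharZero E] {V : Type} [AddCommGroup V] [Module E V] (q : ℕ) (m : ℤ)
    (φ N : Module.End E V) : Prop :=
  ∃ M : ℤ → Submodule E V, IsMonodromyFiltration N M ∧ (∀ (j : ℤ), ∀ x ∈ M j, φ x ∈ M j) ∧
    ∀ (s : ℤ) (μ : E) (x : V), x ∈ M s → x ∉ M (s - 1) → φ x - μ • x ∈ M (s - 1) →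
      IsWeil q (m + s) μ

section maps

variable {A B C : Type} [AddCommGroup A] [Module E A] [AddCommGroup B] [Module E B]
  [AddCommGroup C] [Module E C]

/-- `u : A → B` commutes with the operators `φ` of `A` and `ψ` of `B` -/
def Commutes (φ : Module.End E A) (ψ : Module.End E B) (u : A →ₗ[E] B) : Prop :=
  ∀ x, u (φ x) = ψ (u x)

/-- exactness at the middle term -/
def Exact (u : A →ₗ[E] B) (v : B →ₗ[E] C) : Prop := ∀ x, v x = 0 ↔ ∃ y, u y = x

/-- `N φ = c φ N` -/
def Rel (c : E) (φ N : Module.End E A) : Prop := ∀ x, N (φ x) = c • φ (N x)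

/-- `φ' = c φ` under the isomorphism `e` -/
def Scales (c : E) (φ : Module.End E A) (φ' : Module.End E B) (e : A ≃ₗ[E] B) : Prop :=
  ∀ x, φ' (e x) = c • e (φ x)

/-- There is an isomorphism `A = B` for which `φ' = c φ` and `N' = N`. -/
def IsTwist (c : E) (φ N : Module.End E A) (φ' N' : Module.End E B) : Prop :=
  ∃ e : A ≃ₗ[E] B, Scales c φ φ' e ∧ Commutes N N' e.toLinearMap

end maps

/-! ### Weil numbers -/

variable [CharZero E]

lemma isWeil_unique {q : ℕ} (hq : 2 ≤ q) {w w' : ℤ} {μ : E} (h : IsWeil q w μ)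
    (h' : IsWeil q w' μ) : w = w' := by
  obtain ⟨a, ha, hw⟩ := h
  obtain ⟨b, hb, hw'⟩ := h'
  have hab : a = b := Subtype.ext (ha.trans hb.symm)
  subst hab
  haveI : Algebra.IsAlgebraic ℚ (algebraicClosure ℚ E) := algebraicClosure.isAlgebraic ℚ E
  let σ : algebraicClosure ℚ E →+* ℂ :=
    (IsAlgClosed.lift (R := ℚ) (M := ℂ) (S := algebraicClosure ℚ E)).toRingHom
  have h1 : (q : ℝ) ^ ((w : ℝ) / 2) = (q : ℝ) ^ ((w' : ℝ) / 2) := (hw σ).symm.trans (hw' σ)
  have hq1 : (1 : ℝ) < q := by exact_mod_cast hq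
  have h2 : (w : ℝ) / 2 = (w' : ℝ) / 2 := by
    exact (Real.rpow_right_inj (by linarith) (by linarith)).1 h1
  have h4 : (w : ℝ) = w' := by linarith
  exact_mod_cast h4

lemma isWeil_mul {q : ℕ} (hq : 2 ≤ q) {w : ℤ} {μ : E} (n : ℤ) (h : IsWeil q w μ) :
    IsWeil q (w + 2 * n) ((q : E) ^ n * μ) := by
  obtain ⟨a, ha, hw⟩ := h
  refine ⟨(q : algebraicClosure ℚ E) ^ n * a, ?_, fun σ => ?_⟩
  · change (algebraMap (algebraicClosure ℚ E) E) ((q : algebraicClosure ℚ E) ^ n * a) = _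
    rw [map_mul, map_zpow₀, map_natCast]
    change (q : E) ^ n * (a : E) = _
    rw [ha]
  · rw [map_mul, norm_mul, hw σ, map_zpow₀, map_natCast, norm_zpow, Complex.norm_natCast]
    have hq0 : (0 : ℝ) < q := by exact_mod_cast (by omega : 0 < q)
    rw [← Real.rpow_intCast, ← Real.rpow_add hq0]
    congr 1
    push_cast
    ring

/-! ### Sums of generalized eigenspaces -/

section sp

variable {V : Type} [AddCommGroup V] [Module E V]

/-- the sum of the generalized eigenspaces of `φ` for the eigenvalues in `S` -/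
def sp (φ : Module.End E V) (S : Set E) : Submodule E V := ⨆ μ ∈ S, φ.maxGenEigenspace μ

lemma sp_mono (φ : Module.End E V) {S T : Set E} (h : S ⊆ T) : sp φ S ≤ sp φ T :=
  biSup_mono fun _ hμ => h hμ

lemma gen_le_sp (φ : Module.End E V) {S : Set E} {μ : E} (h : μ ∈ S) :
    φ.maxGenEigenspace μ ≤ sp φ S := le_iSup₂_of_le μ h le_rfl

lemma sp_singleton (φ : Module.End E V) (μ : E) : sp φ {μ} = φ.maxGenEigenspace μ := by
  unfold sp
  simp

lemma sp_disjoint (φ : Module.End E V) {S T : Set E} (h : Disjoint S T) {x : V}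
    (hx : x ∈ sp φ S) (hx' : x ∈ sp φ T) : x = 0 := by
  have h1 : Disjoint (sp φ S) (sp φ T) := φ.independent_maxGenEigenspace.disjoint_biSup_biSup h
  exact (Submodule.disjoint_def.1 h1) x hx hx'

lemma sp_union (φ : Module.End E V) {S T : Set E} {x : V} (hx : x ∈ sp φ (S ∪ T)) :
    ∃ a ∈ sp φ S, ∃ b ∈ sp φ T, a + b = x := by
  unfold sp at hx
  rw [iSup_union] at hx
  exact Submodule.mem_sup.1 hx

lemma sp_univ [IsAlgClosed E] [Module.Finite E V] (φ : Module.End E V) (x : V) :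
    x ∈ sp φ Set.univ := by
  unfold sp
  simp only [Set.mem_univ, iSup_pos]
  rw [Module.End.iSup_maxGenEigenspace_eq_top]
  trivial

lemma sp_split [IsAlgClosed E] [Module.Finite E V] (φ : Module.End E V) (S : Set E) (x : V) :
    ∃ a ∈ sp φ S, ∃ b ∈ sp φ Sᶜ, a + b = x := by
  apply sp_union
  rw [Set.union_compl_self]
  exact sp_univ φ x

lemma sp_induct {φ : Module.End E V} {S : Set E} {L : Submodule E V}
    (h : ∀ μ ∈ S, ∀ x ∈ φ.maxGenEigenspace μ, x ∈ L) : sp φ S ≤ L :=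
  iSup₂_le fun μ hμ => h μ hμ

/-- twisted equivariance -/
lemma comm_pow {V W : Type} [AddCommGroup V] [Module E V] [AddCommGroup W] [Module E W]
    {φ : Module.End E V} {ψ : Module.End E W} {f : V →ₗ[E] W} {c : E}
    (h : ∀ x, f (φ x) = c • ψ (f x)) {μ ν : E} (hμ : μ = c * ν) (k : ℕ) (x : V) :
    f (((φ - μ • 1) ^ k : Module.End E V) x) =
      c ^ k • ((ψ - ν • 1) ^ k : Module.End E W) (f x) := by
  induction k generalizing x with
  | zero => simp
  | succ k ih =>
    rw [pow_succ, pow_succ, pow_succ]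
    change f (((φ - μ • 1) ^ k : Module.End E V) ((φ - μ • 1 : Module.End E V) x)) =
      (c ^ k * c) • ((ψ - ν • 1) ^ k : Module.End E W) ((ψ - ν • 1 : Module.End E W) (f x))
    rw [ih]
    have h1 : f ((φ - μ • 1 : Module.End E V) x) = c • (ψ - ν • 1 : Module.End E W) (f x) := by
      change f (φ x - μ • x) = c • (ψ (f x) - ν • f x)
      rw [map_sub, h, map_smul, hμ, smul_sub, mul_smul]
    rw [h1, map_smul, smul_smul]

lemma sp_map_twist {V W : Type} [AddCommGroup V] [Module E V] [AddCommGroup W] [Module E W]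
    {φ : Module.End E V} {ψ : Module.End E W} {f : V →ₗ[E] W} {c : E} (hc : c ≠ 0)
    (h : ∀ x, f (φ x) = c • ψ (f x)) {S T : Set E} (hST : ∀ ν, c * ν ∈ S → ν ∈ T) {x : V}
    (hx : x ∈ sp φ S) : f x ∈ sp ψ T := by
  have h1 : sp φ S ≤ (sp ψ T).comap f := by
    refine sp_induct fun μ hμ x hx => ?_
    rw [Submodule.mem_comap]
    obtain ⟨k, hk⟩ := (Module.End.mem_maxGenEigenspace _ _ _).1 hx
    have hμ' : μ = c * (c⁻¹ * μ) := by rw [mul_inv_cancel_left₀ hc]
    refine gen_le_sp ψ (hST (c⁻¹ * μ) (by rwa [← hμ'])) ?_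
    rw [Module.End.mem_maxGenEigenspace]
    refine ⟨k, ?_⟩
    have h2 := comm_pow h hμ' k x
    rw [hk, map_zero] at h2
    exact (smul_eq_zero.1 h2.symm).resolve_left (pow_ne_zero k hc)
  exact h1 hx

lemma sp_map {V W : Type} [AddCommGroup V] [Module E V] [AddCommGroup W] [Module E W]
    {φ : Module.End E V} {ψ : Module.End E W} {f : V →ₗ[E] W}
    (h : ∀ x, f (φ x) = ψ (f x)) {S : Set E} {x : V} (hx : x ∈ sp φ S) : f x ∈ sp ψ S :=
  sp_map_twist (c := 1) one_ne_zero (fun x => by rw [h, one_smul])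
    (fun ν hν => by rwa [one_mul] at hν) hx

lemma sp_lift {V W : Type} [AddCommGroup V] [Module E V] [AddCommGroup W] [Module E W]
    [IsAlgClosed E] [Module.Finite E V] {φ : Module.End E V} {ψ : Module.End E W}
    {f : V →ₗ[E] W} (h : ∀ x, f (φ x) = ψ (f x)) {S : Set E} {x : V} (hx : f x ∈ sp ψ S) :
    ∃ a ∈ sp φ S, f a = f x := by
  obtain ⟨a, ha, b, hb, rfl⟩ := sp_split φ S x
  refine ⟨a, ha, ?_⟩
  have h1 : f b = 0 := by
    refine sp_disjoint ψ (disjoint_compl_right (a := S)) ?_ (sp_map h hb)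
    have := Submodule.sub_mem _ hx (sp_map h ha)
    rwa [map_add, add_sub_cancel_left] at this
  rw [map_add, h1, add_zero]

lemma sp_stable {φ : Module.End E V} {S : Set E} {x : V} (hx : x ∈ sp φ S) : φ x ∈ sp φ S :=
  sp_map (f := φ) (fun _ => rfl) hx

/-- components of an element of a stable subspace -/
lemma sp_component [IsAlgClosed E] [Module.Finite E V] {φ : Module.End E V} {L : Submodule E V}
    (hL : ∀ x ∈ L, φ x ∈ L) {S : Set E} {a b : V} (ha : a ∈ sp φ S) (hb : b ∈ sp φ Sᶜ)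
    (hab : a + b ∈ L) : a ∈ L := by
  let ψ : Module.End E L := φ.restrict hL
  have hψ : ∀ x, L.subtype (ψ x) = φ (L.subtype x) := fun x => rfl
  obtain ⟨a', ha', b', hb', h⟩ := sp_split ψ S ⟨a + b, hab⟩
  have h1 : L.subtype a' ∈ sp φ S := sp_map hψ ha'
  have h2 : L.subtype b' ∈ sp φ Sᶜ := sp_map hψ hb'
  have h3 : L.subtype a' + L.subtype b' = a + b := by
    rw [← map_add, h]
    rfl
  have h4 : a - L.subtype a' = 0 := by
    refine sp_disjoint φ (disjoint_compl_right (a := S)) (Submodule.sub_mem _ ha h1) ?_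
    have h5 : a - L.subtype a' = L.subtype b' - b := by
      rw [sub_eq_sub_iff_add_eq_add, h3.symm]
      abel
    rw [h5]
    exact Submodule.sub_mem _ h2 hb
  rw [sub_eq_zero.1 h4]
  exact a'.2

lemma mem_of_eigen {φ : Module.End E V} {S : Set E} {x : V} (hx : x ∈ sp φ S) (hx0 : x ≠ 0)
    {μ : E} (hμ : φ x = μ • x) : μ ∈ S := by
  by_contra hS
  refine hx0 (sp_disjoint φ (Set.disjoint_singleton_right.2 hS) hx ?_)
  rw [sp_singleton, Module.End.mem_maxGenEigenspace]
  refine ⟨1, ?_⟩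
  rw [pow_one]
  change φ x - μ • x = 0
  rw [hμ, sub_self]

end sp

end Pool.Agent.R905.WM
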