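import Pool.Agent.R905.WM.Theory

/-!
# Weight-monodromy and smooth affine cubic hypersurfaces: proofs
-/

set_option autoImplicit false
set_option linter.all false

open AlgebraicGeometry CategoryTheory Pool.Agent.R904.CU

namespace Pool.Agent.R905.WM.WeightedCohomology

variable {K : Type} [Field K] {E : Type} [Field E] [CharZero E] [IsAlgClosed E]
  {T : WeightedCohomology K E} {q : ℕ}

lemma mixed_iff (hq : 2 ≤ q) (hT : T.IsCohomology q) (X : Scheme.{0}) (f : X ⟶ Spec (.of K)) :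
    T.MixedWM q X f ↔ ∀ n w : ℤ, Crit q w (T.φ X f n w) (T.N X f n w) := by
  haveI := hT.finite
  exact forall_congr' fun n => forall_congr' fun w => wm_iff hq (hT.rel X f n w)

theorem twoOfThree (hq : 2 ≤ q) (hT : T.IsCohomology q) :
    TwoOfThree (SepFinType K) (T.MixedWM q) := by
  haveI := hT.finite
  intro X Z U f i j hf hi hj hr
  obtain ⟨a, b, c, hc, he⟩ := hT.longExact X Z U f i j hf hi hj hr
  rw [mixed_iff hq hT, mixed_iff hq hT, mixed_iff hq hT]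
  refine ⟨fun hZ hX => ?_, fun hZ hU => ?_, fun hX hU => ?_⟩
  · -- `H^{n-1}(X) → H^{n-1}(Z) → H^n(U) → H^n(X) → H^n(Z)`
    intro n w
    obtain ⟨n, rfl⟩ : ∃ n', n = n' + 1 := ⟨n - 1, by ring⟩
    obtain ⟨ha, -, -⟩ := hc (n + 1) w
    obtain ⟨-, hb, hc'⟩ := hc n w
    obtain ⟨-, hb', -⟩ := hc (n + 1) w
    exact crit_five hq (hT.rel _ _ _ _) (hT.rel _ _ _ _) (hT.rel _ _ _ _) (hT.rel _ _ _ _)
      hb.1 hb.2 hc'.1 hc'.2 ha.1 ha.2 hb'.1 hb'.2 (he n _ w rfl).2.1 (he n _ w rfl).2.2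
      (he (n + 1) _ w rfl).1 (hX n w) (hZ n w) (hX (n + 1) w) (hZ (n + 1) w)
  · -- `H^{n-1}(Z) → H^n(U) → H^n(X) → H^n(Z) → H^{n+1}(U)`
    intro n w
    obtain ⟨n, rfl⟩ : ∃ n', n = n' + 1 := ⟨n - 1, by ring⟩
    obtain ⟨-, -, hc'⟩ := hc n w
    obtain ⟨ha, hb, hc''⟩ := hc (n + 1) w
    exact crit_five hq (hT.rel _ _ _ _) (hT.rel _ _ _ _) (hT.rel _ _ _ _) (hT.rel _ _ _ _)
      hc'.1 hc'.2 ha.1 ha.2 hb.1 hb.2 hc''.1 hc''.2 (he n _ w rfl).2.2 (he (n + 1) _ w rfl).1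
      (he (n + 1) _ w rfl).2.1 (hZ n w) (hU (n + 1) w) (hZ (n + 1) w) (hU (n + 1 + 1) w)
  · -- `H^n(U) → H^n(X) → H^n(Z) → H^{n+1}(U) → H^{n+1}(X)`
    intro n w
    obtain ⟨ha, hb, hc'⟩ := hc n w
    obtain ⟨ha', -, -⟩ := hc (n + 1) w
    exact crit_five hq (hT.rel _ _ _ _) (hT.rel _ _ _ _) (hT.rel _ _ _ _) (hT.rel _ _ _ _)
      ha.1 ha.2 hb.1 hb.2 hc'.1 hc'.2 ha'.1 ha'.2 (he n _ w rfl).1 (he n _ w rfl).2.1
      (he n _ w rfl).2.2 (hU n w) (hX n w) (hU (n + 1) w) (hX (n + 1) w)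

theorem bundleInvariant (hq : 2 ≤ q) (hT : T.IsCohomology q) :
    BundleInvariant (SepFinType K) (T.MixedWM q) := by
  have hq0 : (q : E) ≠ 0 := Nat.cast_ne_zero.2 (by omega)
  intro r E' X π f hX hE hπ
  rw [mixed_iff hq hT, mixed_iff hq hT]
  constructor
  · intro h n w
    obtain ⟨e, heφ, heN⟩ := hT.bundle r E' X π f hX hE hπ n w _ _ rfl rfl
    have h1 := crit_twist hq e.symm (r : ℤ) (φ' := T.φ X f n w) (N' := T.N X f n w)
      (fun x => by
        apply e.injective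
        rw [map_smul, e.apply_symm_apply, zpow_natCast, ← heφ, e.apply_symm_apply])
      (fun x => by
        apply e.injective
        have h3 := heN (e.symm x)
        change e (T.N X f n w (e.symm x)) = T.N E' (π ≫ f) _ _ (e (e.symm x)) at h3
        rw [h3, e.apply_symm_apply, e.apply_symm_apply]) (h (n + 2 * r) (w + 2 * r))
    have h2 : w + 2 * (r : ℤ) - 2 * r = w := by ring
    rwa [h2] at h1
  · intro h n w
    obtain ⟨n, rfl⟩ : ∃ n', n = n' + 2 * (r : ℤ) := ⟨n - 2 * r, by ring⟩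
    obtain ⟨w, rfl⟩ : ∃ w', w = w' + 2 * (r : ℤ) := ⟨w - 2 * r, by ring⟩
    obtain ⟨e, heφ, heN⟩ := hT.bundle r E' X π f hX hE hπ n w _ _ rfl rfl
    have h1 := crit_twist hq e (-(r : ℤ)) (φ' := T.φ E' (π ≫ f) (n + 2 * r) (w + 2 * r))
      (N' := T.N E' (π ≫ f) (n + 2 * r) (w + 2 * r))
      (fun x => by
        rw [heφ, zpow_neg, zpow_natCast, smul_smul, inv_mul_cancel₀ (pow_ne_zero r hq0), one_smul])
      heN (h n w)
    have h2 : w - 2 * -(r : ℤ) = w + 2 * r := by ring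
    rwa [h2] at h1

lemma wm_iff_mixed (hq : 2 ≤ q) {S : SchProp K} (hT : T.IsCohomology q) (hS : T.Pure S)
    (X : Scheme.{0}) (f : X ⟶ Spec (.of K)) (hf : SepFinType K X f) (hX : S X f) :
    T.WM q X f ↔ T.MixedWM q X f := by
  haveI := hT.finite
  constructor
  · intro h n w
    by_cases hw : w = n
    · subst hw
      exact h w
    · haveI := hS X f hf hX n w hw
      rw [wm_iff hq (hT.rel X f n w)]
      refine ⟨fun x => ?_, fun s x _ _ => Subsingleton.elim _ _, fun s y _ =>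
        ⟨0, Submodule.zero_mem _, Subsingleton.elim _ _⟩⟩
      rw [Subsingleton.elim x 0]
      exact Submodule.zero_mem _
  · intro h n
    exact h n n

theorem main (hq : 2 ≤ q) (hT : T.IsCohomology q) {S : SchProp K} (hS : T.Pure S)
    (hM : Models S) :
    [∀ X f, SepFinType K X f → S X f → T.WM q X f,
     ∀ X f, SepFinType K X f → T.MixedWM q X f,
     ∀ (σ : Type) [Fintype σ] (F : MvPolynomial σ K), IsSmoothCubic F →
       T.MixedWM q _ (hyp F)].TFAE := by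
  have h := tfae_cubic (P := T.MixedWM q) (twoOfThree hq hT) (bundleInvariant hq hT) hM
  have h1 : (∀ X f, SepFinType K X f → S X f → T.WM q X f) ↔
      ∀ X f, SepFinType K X f → S X f → T.MixedWM q X f :=
    ⟨fun h X f hf hX => (wm_iff_mixed hq hT hS X f hf hX).1 (h X f hf hX),
      fun h X f hf hX => (wm_iff_mixed hq hT hS X f hf hX).2 (h X f hf hX)⟩
  rw [h1]
  exact h

end Pool.Agent.R905.WM.WeightedCohomology
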