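import Pool.Agent.R905.WM.Crit
import Pool.Agent.R905.WM.Models

/-!
# Cohomology with compact supports over a local field and its weights
-/

set_option autoImplicit false
set_option linter.dupNamespace false

open AlgebraicGeometry CategoryTheory Pool.Agent.R904.CU

namespace Pool.Agent.R905.WM

/-- For a separated scheme `X` of finite type over the local field `K` and integers `n`, `w`: the space
`H X n w`, to be thought of as the graded piece `gr^W_w H^n_c(X)` of the weight filtration (the
geometric one, defined by means of smooth projective varieties) on the cohomology with compact supports,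
with the operators `φ` (a lift of the geometric Frobenius) and `N` (the monodromy). -/
structure WeightedCohomology (K : Type) [Field K] (E : Type) [Field E] where
  H : ∀ X : Scheme.{0}, (X ⟶ Spec (.of K)) → ℤ → ℤ → Type
  [group : ∀ X f n w, AddCommGroup (H X f n w)]
  [module : ∀ X f n w, Module E (H X f n w)]
  φ : ∀ X f n w, Module.End E (H X f n w)
  N : ∀ X f n w, Module.End E (H X f n w)

attribute [instance] WeightedCohomology.group WeightedCohomology.module

namespace WeightedCohomology

variable {K : Type} [Field K] {E : Type} [Field E] (T : WeightedCohomology K E)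

/-- the linear maps from `H X n w` to `H Y m w` -/
abbrev Map (w : ℤ) (X : Scheme.{0}) (f : X ⟶ Spec (.of K)) (n : ℤ) (Y : Scheme.{0})
    (g : Y ⟶ Spec (.of K)) (m : ℤ) : Type := T.H X f n w →ₗ[E] T.H Y g m w

/-- `u` is compatible with the operators `φ` and `N` -/
def Compatible {X Y : Scheme.{0}} {f : X ⟶ Spec (.of K)} {g : Y ⟶ Spec (.of K)} {n m w : ℤ}
    (u : T.Map w X f n Y g m) : Prop :=
  Commutes (T.φ X f n w) (T.φ Y g m w) u ∧ Commutes (T.N X f n w) (T.N Y g m w) u

/-- a long exact sequence `… → H^n_c(U) → H^n_c(X) → H^n_c(Z) → H^{n+1}_c(U) → …` of maps compatible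
with `φ` and `N`, for every weight -/
def Sequence {X Z U : Scheme.{0}} (f : X ⟶ Spec (.of K)) (g : Z ⟶ Spec (.of K))
    (h : U ⟶ Spec (.of K)) : Prop :=
  ∃ (a : ∀ n w, T.Map w U h n X f n) (b : ∀ n w, T.Map w X f n Z g n)
    (c : ∀ n m w, T.Map w Z g n U h m),
    (∀ n w, T.Compatible (a n w) ∧ T.Compatible (b n w) ∧ T.Compatible (c n (n + 1) w)) ∧
    ∀ n m w, m = n + 1 → Exact (a n w) (b n w) ∧ Exact (b n w) (c n m w) ∧
      Exact (c n m w) (a m w)

/-- the long exact sequence of a closed subscheme `Z` of `X` and its complement `U` -/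
def LongExact : Prop :=
  ∀ (X Z U : Scheme.{0}) (f : X ⟶ Spec (.of K)) (i : Z ⟶ X) (j : U ⟶ X), SepFinType K X f →
    IsClosedImmersion i → IsOpenImmersion j → Set.range i = (Set.range j)ᶜ →
    T.Sequence f (i ≫ f) (j ≫ f)

/-- `H^{n+2r}_c(E') = H^n_c(X)(-r)` for an affine bundle `E' → X` of rank `r` -/
def Bundle (q : ℕ) : Prop :=
  ∀ (r : ℕ) (E' X : Scheme.{0}) (π : E' ⟶ X) (f : X ⟶ Spec (.of K)), SepFinType K X f →
    SepFinType K E' (π ≫ f) → IsAffineBundle r π → ∀ n w m v : ℤ, m = n + 2 * r → v = w + 2 * r →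
    IsTwist ((q : E) ^ r) (T.φ X f n w) (T.N X f n w) (T.φ E' (π ≫ f) m v) (T.N E' (π ≫ f) m v)

/-- The formal properties of the cohomology with compact supports; `q` is the number of elements of the
residue field of `K`. -/
structure IsCohomology (q : ℕ) : Prop where
  finite : ∀ X f n w, Module.Finite E (T.H X f n w)
  rel : ∀ X f n w, Rel (q : E) (T.φ X f n w) (T.N X f n w)
  longExact : T.LongExact
  bundle : T.Bundle q

/-- For `X` in the class `S` (smooth projective schemes), `H^n(X)` is pure of geometric weight `n`. -/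
def Pure (S : SchProp K) : Prop :=
  ∀ X f, SepFinType K X f → S X f → ∀ n w : ℤ, w ≠ n → Subsingleton (T.H X f n w)

/-- the weight-monodromy conjecture for the cohomology of `X` (in the class `S`): for all `n` and `s`,
the eigenvalues of `φ` on `gr^M_s H^n(X)` have weight `n + s` -/
def WM [CharZero E] (q : ℕ) (X : Scheme.{0}) (f : X ⟶ Spec (.of K)) : Prop :=
  ∀ n : ℤ, WeightMonodromy q n (T.φ X f n n) (T.N X f n n)

/-- the weight-monodromy property of all graded pieces `gr^W_w H^n_c(X)`: for all `n`, `w` and `s`, the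
eigenvalues of `φ` on `gr^M_s gr^W_w H^n_c(X)` have weight `w + s` -/
def MixedWM [CharZero E] (q : ℕ) (X : Scheme.{0}) (f : X ⟶ Spec (.of K)) : Prop :=
  ∀ n w : ℤ, WeightMonodromy q w (T.φ X f n w) (T.N X f n w)

end WeightedCohomology

end Pool.Agent.R905.WM
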