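import Pool.Agent.R905.WM.Main

/-!
# The version with the action of the whole Weil group
-/

set_option autoImplicit false
set_option linter.dupNamespace false

open AlgebraicGeometry CategoryTheory Pool.Agent.R904.CU

namespace Pool.Agent.R905.WM

/-- For a separated scheme `X` of finite type over the local field `K` and integers `n`, `w`: the space
`H X n w`, to be thought of as the graded piece `gr^W_w H^n_c(X)` of the weight filtration (the
geometric one, defined by means of smooth projective varieties) on the cohomology with compact supports,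
with the operators `ρ g` (the action of the elements `g` of the Weil group) and `N` (the monodromy). -/
structure WeilCohomology (K : Type) [Field K] (E : Type) [Field E] (Γ : Type) where
  H : ∀ X : Scheme.{0}, (X ⟶ Spec (.of K)) → ℤ → ℤ → Type
  [group : ∀ X f n w, AddCommGroup (H X f n w)]
  [module : ∀ X f n w, Module E (H X f n w)]
  ρ : ∀ X f n w, Γ → Module.End E (H X f n w)
  N : ∀ X f n w, Module.End E (H X f n w)

attribute [instance] WeilCohomology.group WeilCohomology.module

namespace WeilCohomology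

variable {K : Type} [Field K] {E : Type} [Field E] {Γ : Type} (T : WeilCohomology K E Γ)

/-- the linear maps from `H X n w` to `H Y m w` -/
abbrev Map (w : ℤ) (X : Scheme.{0}) (f : X ⟶ Spec (.of K)) (n : ℤ) (Y : Scheme.{0})
    (g : Y ⟶ Spec (.of K)) (m : ℤ) : Type := T.H X f n w →ₗ[E] T.H Y g m w

/-- `u` is compatible with the operators `ρ g` and `N` -/
def Compatible {X Y : Scheme.{0}} {f : X ⟶ Spec (.of K)} {g : Y ⟶ Spec (.of K)} {n m w : ℤ}
    (u : T.Map w X f n Y g m) : Prop :=
  (∀ γ, Commutes (T.ρ X f n w γ) (T.ρ Y g m w γ) u) ∧ Commutes (T.N X f n w) (T.N Y g m w) u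

/-- a long exact sequence `… → H^n_c(U) → H^n_c(X) → H^n_c(Z) → H^{n+1}_c(U) → …` of maps compatible
with the `ρ g` and `N`, for every weight -/
def Sequence {X Z U : Scheme.{0}} (f : X ⟶ Spec (.of K)) (g : Z ⟶ Spec (.of K))
    (h : U ⟶ Spec (.of K)) : Prop :=
  ∃ (a : ∀ n w, T.Map w U h n X f n) (b : ∀ n w, T.Map w X f n Z g n)
    (c : ∀ n m w, T.Map w Z g n U h m),
    (∀ n w, T.Compatible (a n w) ∧ T.Compatible (b n w) ∧ T.Compatible (c n (n + 1) w)) ∧
    ∀ n m w, m = n + 1 → Exact (a n w) (b n w) ∧ Exact (b n w) (c n m w) ∧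
      Exact (c n m w) (a m w)

/-- the long exact sequence of a closed subscheme `Z` of `X` and its complement `U` -/
def LongExact : Prop :=
  ∀ (X Z U : Scheme.{0}) (f : X ⟶ Spec (.of K)) (i : Z ⟶ X) (j : U ⟶ X), SepFinType K X f →
    IsClosedImmersion i → IsOpenImmersion j → Set.range i = (Set.range j)ᶜ →
    T.Sequence f (i ≫ f) (j ≫ f)

/-- the isomorphism `H^n_c(X)(-r) = H^m_c(Y)`, `m = n + 2r` -/
def Twists (q r : ℕ) (v : Γ → ℤ) {X Y : Scheme.{0}} (f : X ⟶ Spec (.of K))
    (g : Y ⟶ Spec (.of K)) (n w m u : ℤ) : Prop :=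
  ∃ e : T.H X f n w ≃ₗ[E] T.H Y g m u,
    (∀ γ, Scales ((q : E) ^ (r * v γ)) (T.ρ X f n w γ) (T.ρ Y g m u γ) e) ∧
    Commutes (T.N X f n w) (T.N Y g m u) e.toLinearMap

/-- `H^{n+2r}_c(E') = H^n_c(X)(-r)` for an affine bundle `E' → X` of rank `r` -/
def Bundle (q : ℕ) (v : Γ → ℤ) : Prop :=
  ∀ (r : ℕ) (E' X : Scheme.{0}) (π : E' ⟶ X) (f : X ⟶ Spec (.of K)), SepFinType K X f →
    SepFinType K E' (π ≫ f) → IsAffineBundle r π → ∀ n w m u : ℤ, m = n + 2 * r → u = w + 2 * r →
    T.Twists q r v f (π ≫ f) n w m u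

/-- The formal properties of the cohomology with compact supports; `q` is the number of elements of the
residue field of `K`, and `g` acts on the residue field as the power `v g` of the geometric
Frobenius. -/
structure IsCohomology (q : ℕ) (v : Γ → ℤ) : Prop where
  finite : ∀ X f n w, Module.Finite E (T.H X f n w)
  rel : ∀ X f n w γ, Rel ((q : E) ^ v γ) (T.ρ X f n w γ) (T.N X f n w)
  longExact : T.LongExact
  bundle : T.Bundle q v

/-- For `X` in the class `S` (smooth projective schemes), `H^n(X)` is pure of geometric weight `n`. -/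
def Pure (S : SchProp K) : Prop :=
  ∀ X f, SepFinType K X f → S X f → ∀ n w : ℤ, w ≠ n → Subsingleton (T.H X f n w)

/-- the weight-monodromy conjecture for the cohomology of `X` (in the class `S`): for all `g` of degree
`v g > 0` and all `n` and `s`, the eigenvalues of `g` on `gr^M_s H^n(X)` are algebraic numbers all of
whose complex conjugates have absolute value `q ^ (v g * (n + s) / 2)` -/
def WM [CharZero E] (q : ℕ) (v : Γ → ℤ) (X : Scheme.{0}) (f : X ⟶ Spec (.of K)) : Prop :=
  ∀ γ, 0 < v γ → ∀ n : ℤ,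
    WeightMonodromy (q ^ (v γ).toNat) n (T.ρ X f n n γ) (T.N X f n n)

/-- the weight-monodromy property of all graded pieces `gr^W_w H^n_c(X)`: for all `g` of degree
`v g > 0` and all `n`, `w` and `s`, the eigenvalues of `g` on `gr^M_s gr^W_w H^n_c(X)` are algebraic
numbers all of whose complex conjugates have absolute value `q ^ (v g * (w + s) / 2)` -/
def MixedWM [CharZero E] (q : ℕ) (v : Γ → ℤ) (X : Scheme.{0}) (f : X ⟶ Spec (.of K)) : Prop :=
  ∀ γ, 0 < v γ → ∀ n w : ℤ,
    WeightMonodromy (q ^ (v γ).toNat) w (T.ρ X f n w γ) (T.N X f n w)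

/-- the cohomology with the action of one element -/
def restr (γ : Γ) : WeightedCohomology K E where
  H := T.H
  φ X f n w := T.ρ X f n w γ
  N := T.N

theorem restr_isCohomology {q : ℕ} {v : Γ → ℤ} (h : T.IsCohomology q v) {γ : Γ}
    (hγ : 0 < v γ) : (T.restr γ).IsCohomology (q ^ (v γ).toNat) where
  finite := h.finite
  rel X f n w x := by
    have h1 : ((q ^ (v γ).toNat : ℕ) : E) = (q : E) ^ v γ := by
      rw [Nat.cast_pow, ← zpow_natCast, Int.toNat_of_nonneg hγ.le]
    rw [h1]
    exact h.rel X f n w γ x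
  longExact X Z U f i j hf hi hj hr := by
    obtain ⟨a, b, c, hc, he⟩ := h.longExact X Z U f i j hf hi hj hr
    exact ⟨a, b, c, fun n w => ⟨⟨(hc n w).1.1 γ, (hc n w).1.2⟩,
      ⟨(hc n w).2.1.1 γ, (hc n w).2.1.2⟩, ⟨(hc n w).2.2.1 γ, (hc n w).2.2.2⟩⟩, he⟩
  bundle r E' X π f hX hE hπ n w m u hm hu := by
    obtain ⟨e, heφ, heN⟩ := h.bundle r E' X π f hX hE hπ n w m u hm hu
    refine ⟨e, fun x => ?_, heN⟩
    have h1 : ((q ^ (v γ).toNat : ℕ) : E) ^ r = (q : E) ^ (r * v γ) := by
      rw [Nat.cast_pow, ← pow_mul, ← zpow_natCast, Nat.cast_mul, Int.toNat_of_nonneg hγ.le,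
        mul_comm]
    rw [h1]
    exact heφ γ x

theorem main [CharZero E] [IsAlgClosed E] {q : ℕ} (hq : 2 ≤ q) {v : Γ → ℤ}
    (hT : T.IsCohomology q v) {S : SchProp K} (hS : T.Pure S) (hM : Models S) :
    [∀ X f, SepFinType K X f → S X f → T.WM q v X f,
     ∀ X f, SepFinType K X f → T.MixedWM q v X f,
     ∀ (σ : Type) [Fintype σ] (F : MvPolynomial σ K), IsSmoothCubic F →
       T.MixedWM q v _ (hyp F)].TFAE := by
  have key : ∀ γ, 0 < v γ →
      [∀ X f, SepFinType K X f → S X f → (T.restr γ).WM (q ^ (v γ).toNat) X f,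
       ∀ X f, SepFinType K X f → (T.restr γ).MixedWM (q ^ (v γ).toNat) X f,
       ∀ (σ : Type) [Fintype σ] (F : MvPolynomial σ K), IsSmoothCubic F →
         (T.restr γ).MixedWM (q ^ (v γ).toNat) _ (hyp F)].TFAE := fun γ hγ =>
    WeightedCohomology.main (T := T.restr γ) (q := q ^ (v γ).toNat)
      (hq.trans (Nat.le_self_pow (by omega) q)) (T.restr_isCohomology hT hγ) (S := S) hS hM
  tfae_have 1 → 2 := by
    intro h X f hf γ hγ
    have h1 : ∀ X f, SepFinType K X f → S X f → (T.restr γ).WM (q ^ (v γ).toNat) X f :=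
      fun X f hf hX n => h X f hf hX γ hγ n
    have h2 : ∀ X f, SepFinType K X f → (T.restr γ).MixedWM (q ^ (v γ).toNat) X f :=
      ((key γ hγ).out 0 1).1 h1
    exact h2 X f hf
  tfae_have 2 → 3 := fun h σ _ F _ => h _ (hyp F) ((cls_sepFinType K).affine _ inferInstance)
  tfae_have 3 → 1 := by
    intro h X f hf hX γ hγ
    have h1 : ∀ (σ : Type) [Fintype σ] (F : MvPolynomial σ K), IsSmoothCubic F →
        (T.restr γ).MixedWM (q ^ (v γ).toNat) _ (hyp F) := fun σ _ F hF => h σ F hF γ hγ
    have h2 : ∀ X f, SepFinType K X f → S X f → (T.restr γ).WM (q ^ (v γ).toNat) X f :=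
      ((key γ hγ).out 2 0).1 h1
    exact h2 X f hf hX
  tfae_finish

end WeilCohomology

end Pool.Agent.R905.WM
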